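import Pool.Agent.Lib.MP_b5021c_nt.IfaceB

/-!
# Board b5, row HUR: the two-parameter principle
-/

namespace Pool.Agent.B5.H74

open Polynomial Set Metric

theorem eval_eval_eq (F : Polynomial (Polynomial ℂ)) (s t : ℂ) :
    (F.eval (C t)).eval s = ∑ i ∈ Finset.range (F.natDegree + 1), (F.coeff i).eval s * t ^ i := by
  rw [Polynomial.eval_eq_sum_range (p := F), Polynomial.eval_finsetSum]
  refine Finset.sum_congr rfl fun i _ => ?_
  rw [Polynomial.eval_mul, Polynomial.eval_pow, Polynomial.eval_C]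

theorem hur : HurS := by
  intro F h1 h2 s0 t0 hs0 ht0
  obtain ⟨G, hG⟩ : ∃ G : ℂ → ℂ → ℂ, G = fun s t =>
    ∑ i ∈ Finset.range (F.natDegree + 1), (F.coeff i).eval s * t ^ i := ⟨_, rfl⟩
  have hFG : ∀ s t : ℂ, (F.eval (C t)).eval s = G s t := fun s t => by
    rw [hG]; exact eval_eval_eq F s t
  have h1' : ∀ s t : ℂ, ‖s‖ < 1 → ‖t‖ = 1 → G s t ≠ 0 := fun s t hs ht => by
    rw [← hFG]; exact h1 s t hs ht
  have h2' : ∀ t : ℂ, ‖t‖ ≤ 1 → G 0 t ≠ 0 := fun t ht => by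
    rw [← hFG]; exact h2 t ht
  rw [hFG]
  have hcont : Continuous fun p : ℝ × ℂ => G ((p.1 : ℂ) * s0) p.2 := by
    rw [hG]
    refine continuous_finsetSum _ fun i _ => ?_
    refine Continuous.mul ?_ (continuous_snd.pow i)
    exact (F.coeff i).continuous.comp
      ((Complex.continuous_ofReal.comp continuous_fst).mul continuous_const)
  have hdiff : ∀ s : ℂ, Differentiable ℂ fun t => G s t := by
    intro s
    rw [hG]
    refine Differentiable.fun_sum fun i _ => ?_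
    exact (differentiable_const _).mul (differentiable_id.pow i)
  have hball : ∀ x : ℝ, x ∈ Icc (0 : ℝ) 1 → ‖(x : ℂ) * s0‖ < 1 := by
    intro x hx
    rw [norm_mul, Complex.norm_real, Real.norm_of_nonneg hx.1]
    have := norm_nonneg s0
    nlinarith [hx.1, hx.2]
  -- minimum over the torus part
  have hK1 : IsCompact (Icc (0 : ℝ) 1 ×ˢ sphere (0 : ℂ) 1) :=
    isCompact_Icc.prod (isCompact_sphere _ _)
  have hne1 : (Icc (0 : ℝ) 1 ×ˢ sphere (0 : ℂ) 1).Nonempty :=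
    ⟨(0, 1), ⟨by simp, by simp⟩⟩
  obtain ⟨p0, hp0, hmin⟩ := hK1.exists_isMinOn hne1 (hcont.norm.continuousOn)
  obtain ⟨m, hm⟩ : ∃ m : ℝ, m = ‖G ((p0.1 : ℂ) * s0) p0.2‖ := ⟨_, rfl⟩
  have hmpos : 0 < m := by
    rw [hm, norm_pos_iff]
    refine h1' _ _ (hball _ hp0.1) ?_
    have := hp0.2
    simpa using this
  have hmle : ∀ x ∈ Icc (0 : ℝ) 1, ∀ t : ℂ, ‖t‖ = 1 → m ≤ ‖G ((x : ℂ) * s0) t‖ := by
    intro x hx t ht
    have h3 : ((x, t) : ℝ × ℂ) ∈ Icc (0 : ℝ) 1 ×ˢ sphere (0 : ℂ) 1 := ⟨hx, by simpa using ht⟩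
    have h4 := hmin h3
    rw [hm]
    exact h4
  -- maximum principle
  have hmax : ∀ x ∈ Icc (0 : ℝ) 1, (∀ t : ℂ, ‖t‖ ≤ 1 → G ((x : ℂ) * s0) t ≠ 0) →
      ∀ t : ℂ, ‖t‖ ≤ 1 → m ≤ ‖G ((x : ℂ) * s0) t‖ := by
    intro x hx hnz t ht
    have hd : DiffContOnCl ℂ (fun t => (G ((x : ℂ) * s0) t)⁻¹) (ball (0 : ℂ) 1) := by
      have h5 : DiffContOnCl ℂ (fun t => G ((x : ℂ) * s0) t) (ball (0 : ℂ) 1) :=
        (hdiff _).diffContOnCl
      refine h5.inv fun z hz => ?_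
      rw [closure_ball _ one_ne_zero] at hz
      exact hnz z (by simpa using hz)
    have h6 : ‖(G ((x : ℂ) * s0) t)⁻¹‖ ≤ m⁻¹ := by
      refine Complex.norm_le_of_forall_mem_frontier_norm_le isBounded_ball hd ?_ ?_
      · intro z hz
        rw [frontier_ball _ one_ne_zero] at hz
        rw [norm_inv]
        exact inv_anti₀ hmpos (hmle x hx z (by simpa using hz))
      · rw [closure_ball _ one_ne_zero]
        simpa using ht
    rw [norm_inv] at h6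
    exact (inv_le_inv₀ (norm_pos_iff.2 (hnz t ht)) hmpos).1 h6
  -- the two closed sets
  have hT1 : IsClosed {x : ℝ | ∀ t : ℂ, ‖t‖ ≤ 1 → m ≤ ‖G ((x : ℂ) * s0) t‖} := by
    have h7 : {x : ℝ | ∀ t : ℂ, ‖t‖ ≤ 1 → m ≤ ‖G ((x : ℂ) * s0) t‖} =
        ⋂ t : ℂ, ⋂ _ : ‖t‖ ≤ 1, {x : ℝ | m ≤ ‖G ((x : ℂ) * s0) t‖} := by
      ext x
      simp
    rw [h7]
    refine isClosed_iInter fun t => isClosed_iInter fun _ => ?_
    exact isClosed_le continuous_const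
      ((hcont.comp (continuous_id.prodMk continuous_const)).norm)
  have hK2 : IsCompact ((Icc (0 : ℝ) 1 ×ˢ closedBall (0 : ℂ) 1) ∩
      {p : ℝ × ℂ | G ((p.1 : ℂ) * s0) p.2 = 0}) :=
    (isCompact_Icc.prod (isCompact_closedBall _ _)).inter_right
      (isClosed_eq hcont continuous_const)
  have hT2 : IsClosed (Prod.fst '' ((Icc (0 : ℝ) 1 ×ˢ closedBall (0 : ℂ) 1) ∩
      {p : ℝ × ℂ | G ((p.1 : ℂ) * s0) p.2 = 0})) :=
    (hK2.image continuous_fst).isClosed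
  by_contra h0
  have hcon := isPreconnected_closed_iff.1 (isPreconnected_Icc (a := (0 : ℝ)) (b := 1)) _ _ hT1 hT2
    (by
      intro x hx
      by_cases hz : ∀ t : ℂ, ‖t‖ ≤ 1 → G ((x : ℂ) * s0) t ≠ 0
      · exact Or.inl (hmax x hx hz)
      · push Not at hz
        obtain ⟨t, ht, ht0⟩ := hz
        exact Or.inr ⟨(x, t), ⟨⟨hx, by simpa using ht⟩, ht0⟩, rfl⟩)
    (by
      refine ⟨0, by simp, hmax 0 (by simp) ?_⟩
      intro t ht
      simpa using h2' t ht)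
    (by
      refine ⟨1, by simp, (1, t0), ⟨⟨by simp, by simpa using ht0⟩, ?_⟩, rfl⟩
      simpa using h0)
  obtain ⟨x, hx, hx1, ⟨p, ⟨hp1, hp2⟩, hpx⟩⟩ := hcon
  have h8 := hx1 p.2 (by simpa using hp1.2)
  rw [← hpx] at h8
  rw [hp2, norm_zero] at h8
  exact absurd hmpos (not_lt.2 h8)

end Pool.Agent.B5.H74
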