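import Pool.Agent.Lib.MP_b5021c_nt.IfaceS1
import Pool.Agent.Lib.MP_b5021c_nt.B.H65.B5a

/-!
# MP_b5021c_nt, row S_APA: a drop of the rank at one load and a small factor at another
-/

namespace Pool.Agent.B5.H74

open scoped LaurentPolynomial
open AddMonoidAlgebra

section Gen

variable {O : Type} [CommRing O] {L : Type} [AddCommGroup L]

/-- Exponents of a closed element are projections. -/
theorem supp_cl (k : L →+ ℤ) (S : L) (h : k S = 1) (eta : (RO O)ˣ) (F : AO O L) (b : Ker k)
    (hb : b ∈ supp (cl k S h eta F)) : ∃ a ∈ supp F, prj k S h a = b := by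
  classical
  by_contra hcon
  push Not at hcon
  apply hb
  rw [H65.cl_coeff]
  refine Finset.sum_eq_zero fun a ha => ?_
  rw [Finsupp.single_apply, if_neg]
  exact hcon a (Finsupp.mem_support_iff.1 ha)

/-- Exponents of a product. -/
theorem supp_mul (F G : AO O L) (c : L) (hc : c ∈ supp (F * G)) :
    ∃ a ∈ supp F, ∃ b ∈ supp G, a + b = c := by
  classical
  have h1 := AddMonoidAlgebra.support_coeff_mul_subset F G (Finsupp.mem_support_iff.2 hc)
  obtain ⟨a, ha, b, hb, hab⟩ := Finset.mem_add.1 h1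
  exact ⟨a, Finsupp.mem_support_iff.1 ha, b, Finsupp.mem_support_iff.1 hb, hab⟩

/-- `mu = 0` on the exponents. -/
def Zr (mu : L →+ ℤ) (F : AO O L) : Prop := ∀ a ∈ supp F, mu a = 0

theorem zr_mul {mu : L →+ ℤ} {F G : AO O L} (hF : Zr mu F) (hG : Zr mu G) : Zr mu (F * G) := by
  intro c hc
  obtain ⟨a, ha, b, hb, rfl⟩ := supp_mul F G c hc
  rw [map_add, hF a ha, hG b hb, add_zero]

theorem zr_single {mu : L →+ ℤ} {a : L} (q : RO O) (ha : mu a = 0) : Zr mu (single a q) := by
  intro b hb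
  classical
  by_cases h : a = b
  · rw [← h]; exact ha
  · exfalso
    apply hb
    rw [coeff_single, Finsupp.single_apply, if_neg h]

theorem zr_sub {mu : L →+ ℤ} {F G : AO O L} (hF : Zr mu F) (hG : Zr mu G) : Zr mu (F - G) := by
  intro a ha
  by_contra h
  apply ha
  have h1 : F.coeff a = 0 := by
    by_contra h2
    exact h (hF a h2)
  have h2 : G.coeff a = 0 := by
    by_contra h2
    exact h (hG a h2)
  rw [coeff_sub, Finsupp.sub_apply, h1, h2, sub_zero]

theorem single_mul_coeff (a0 : L) (F : AO O L) (a : L) :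
    ((mon a0 : AO O L) * F).coeff a = F.coeff (-a0 + a) := by
  rw [mon, coeff_single_mul_apply, one_mul]

end Gen

section Lat

variable {O : Type} [CommRing O] [IsDomain O] [IsPrincipalIdealRing O] [Coef O]
  {L : Type} [AddCommGroup L] [Module.Free ℤ L] [Module.Finite ℤ L]

/-- A bound for a product is a bound for the second factor, up to a shift. -/
theorem min_right (h3 : MinS) (q U : AO O L) (a0 : L) (ha0 : a0 ∈ supp q) (hU : U ≠ 0)
    (k : L →+ ℤ) (m : ℤ) (hm : ∀ a ∈ supp (q * U), m ≤ k a) :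
    ∀ a ∈ supp U, m - k a0 ≤ k a := by
  have h1 : ((mon (-a0) : AO O L) * q).coeff 0 ≠ 0 := by
    rw [single_mul_coeff, neg_neg, add_zero]
    exact ha0
  refine h3 O L U ((mon (-a0) : AO O L) * q) hU h1 k (m - k a0) ?_
  intro a ha
  have h2 : U * ((mon (-a0) : AO O L) * q) = (mon (-a0) : AO O L) * (q * U) := by ring
  rw [h2] at ha
  have h4 : a0 + a ∈ supp (q * U) := by
    have h5 : ((mon (-a0) : AO O L) * (q * U)).coeff a ≠ 0 := ha
    rw [single_mul_coeff, neg_neg] at h5
    exact h5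
  have h5 := hm _ h4
  rw [map_add] at h5
  linarith

/-- `mu = 0` on a product with a factor with a constant coefficient. -/
theorem zr_of_mul (h3 : MinS) (q U : AO O L) (hq : q ≠ 0) (hU : U.coeff 0 ≠ 0)
    (mu : L →+ ℤ) (hm : Zr mu (q * U)) : Zr mu q ∧ Zr mu U := by
  have hU0 : U ≠ 0 := by
    rintro rfl
    exact hU (by simp)
  have hzq : Zr mu q := by
    intro a ha
    have h1 := h3 O L q U hq hU mu 0 (fun a ha => le_of_eq (hm a ha).symm) a ha
    have h2 := h3 O L q U hq hU (-mu) 0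
      (fun a ha => by rw [AddMonoidHom.neg_apply, hm a ha, neg_zero]) a ha
    rw [AddMonoidHom.neg_apply] at h2
    linarith
  refine ⟨hzq, ?_⟩
  obtain ⟨a0, ha0⟩ : ∃ a0, a0 ∈ supp q := by
    by_contra hcon
    push Not at hcon
    apply hq
    apply AddMonoidAlgebra.ext
    apply Finsupp.ext
    intro a
    by_contra h5
    exact hcon a h5
  intro a ha
  have h1 := min_right h3 q U a0 ha0 hU0 mu 0 (fun a ha => le_of_eq (hm a ha).symm) a ha
  have h2 := min_right h3 q U a0 ha0 hU0 (-mu) 0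
      (fun a ha => by rw [AddMonoidHom.neg_apply, hm a ha, neg_zero]) a ha
  rw [AddMonoidHom.neg_apply, AddMonoidHom.neg_apply] at h2
  have h4 := hzq a0 ha0
  linarith

omit [Module.Finite ℤ L] in
/-- Functionals separate points. -/
theorem eq_zero_of_fun (a : L) (h : ∀ nu : L →+ ℤ, nu a = 0) : a = 0 := by
  have h1 : ∀ f : Module.Dual ℤ L, f a = 0 := fun f => h f.toAddMonoidHom
  exact (Module.forall_dual_apply_eq_zero_iff ℤ a).1 h1

/-- A factor with symmetric support of a pointed element is a constant. -/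
theorem cst_of_sym (h3 : MinS) (q U : AO O L) (hq : q ≠ 0) (hU : U.coeff 0 ≠ 0)
    (hsym : ∀ a ∈ supp q, -a ∈ supp q) (lam : L →+ ℤ) (hlam : Pos lam (q * U)) :
    q = cst (q.coeff 0) := by
  classical
  have hnn : ∀ a ∈ supp (q * U), 0 ≤ lam a := by
    intro a ha
    by_cases h0 : a = 0
    · rw [h0, map_zero]
    · exact (hlam a (Finsupp.mem_support_iff.2 ha) h0).le
  have hl0 : ∀ a ∈ supp q, lam a = 0 := by
    intro a ha
    have h1 := h3 O L q U hq hU lam 0 hnn a ha
    have h2 := h3 O L q U hq hU lam 0 hnn (-a) (hsym a ha)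
    rw [map_neg] at h2
    linarith
  have hge : ∀ nu : L →+ ℤ, ∀ a ∈ supp q, 0 ≤ nu a := by
    intro nu a ha
    set N : ℤ := ∑ c ∈ (q * U).coeff.support, |nu c| with hN
    have h1 : ∀ c ∈ supp (q * U), 0 ≤ (N • lam + nu) c := by
      intro c hc
      have hc' := Finsupp.mem_support_iff.2 hc
      by_cases h0 : c = 0
      · rw [h0, map_zero]
      · have h4 : (1 : ℤ) ≤ lam c := hlam c hc' h0
        have h5 : |nu c| ≤ N :=
          Finset.single_le_sum (f := fun c => |nu c|) (fun i _ => abs_nonneg _) hc'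
        have h6 := neg_abs_le (nu c)
        have h7 : 0 ≤ |nu c| := abs_nonneg _
        have h8 : (N • lam + nu) c = N * lam c + nu c := by
          rw [AddMonoidHom.add_apply, AddMonoidHom.smul_apply, smul_eq_mul]
        rw [h8]
        nlinarith
    have h2 := h3 O L q U hq hU (N • lam + nu) 0 h1 a ha
    rw [AddMonoidHom.add_apply, AddMonoidHom.smul_apply, hl0 a ha, smul_zero, zero_add] at h2
    exact h2
  have hz : ∀ a ∈ supp q, a = 0 := by
    intro a ha
    apply eq_zero_of_fun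
    intro nu
    have h1 := hge nu a ha
    have h2 := hge nu (-a) (hsym a ha)
    rw [map_neg] at h2
    linarith
  apply AddMonoidAlgebra.ext
  apply Finsupp.ext
  intro a
  rw [cst, coeff_single, Finsupp.single_apply]
  split_ifs with h0
  · rw [← h0]
  · by_contra h1
    exact h0 (hz a h1).symm

/-- The constant coefficient of a product of pointed elements. -/
theorem prod_coeff0 (h4 : Coeff0S) {ι : Type} (s : Finset ι) (F : ι → AO O L) (lam : L →+ ℤ)
    (hF : ∀ i ∈ s, Pos lam (F i)) :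
    (∏ i ∈ s, F i).coeff 0 = ∏ i ∈ s, (F i).coeff 0 ∧ Pos lam (∏ i ∈ s, F i) := by
  classical
  induction s using Finset.induction_on with
  | empty =>
    refine ⟨?_, ?_⟩
    · rw [Finset.prod_empty, Finset.prod_empty, one_def, coeff_single, Finsupp.single_eq_same]
    · intro a ha h0
      exfalso
      rw [Finset.prod_empty, one_def, coeff_single, Finsupp.mem_support_iff,
        Finsupp.single_apply, if_neg (Ne.symm h0)] at ha
      exact ha rfl
  | insert i s hi ih =>
    obtain ⟨h1, h2⟩ := ih (fun j hj => hF j (Finset.mem_insert_of_mem hj))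
    obtain ⟨h5, h6⟩ := h4 O L (F i) (∏ j ∈ s, F j) lam (hF i (Finset.mem_insert_self i s)) h2
    rw [Finset.prod_insert hi, Finset.prod_insert hi, h5, h1]
    exact ⟨rfl, h6⟩

end Lat

section Aux

variable {O : Type} [CommRing O] [IsDomain O] {L : Type} [AddCommGroup L]

theorem supp_cst_mul {r : RO O} (hr : r ≠ 0) (F : AO O L) (a : L) (ha : a ∈ supp F) :
    a ∈ supp (cst r * F) := by
  intro h
  rw [H71.cst_mul_coeff] at h
  rcases mul_eq_zero.1 h with h1 | h1
  · exact hr h1
  · exact ha h1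

theorem mul_cst_coeff (c : RO O) (F : AO O L) (a : L) :
    (F * cst c).coeff a = F.coeff a * c := by
  rw [mul_comm, H71.cst_mul_coeff, mul_comm]

theorem zr_em (K : Submodule ℤ L) (mu : L →+ ℤ) (F : AO O K) (hF : Zr (mu.comp (incl K)) F) :
    Zr mu (H71.em K F) := by
  intro a ha
  by_cases h : a ∈ K
  · have h1 := H71.em_coeff K F ⟨a, h⟩
    exact hF ⟨a, h⟩ (fun h2 => ha (h1.trans h2))
  · exact absurd (H71.em_coeff_not K F a h) ha

theorem pos_res (K : Submodule ℤ L) (lam : L →+ ℤ) (F : AO O L) (hF : Pos lam F) :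
    Pos (lam.comp (incl K)) (res K F) := by
  intro a ha h0
  refine hF (a : L) ?_ ?_
  · rw [Finsupp.mem_support_iff] at ha ⊢
    exact ha
  · intro h
    exact h0 (Subtype.ext h)

end Aux

section Rank

/-- The exponents on which a non-zero functional vanishes do not have full rank. -/
theorem rk_lt (h6 : RkS) (K : Type) [AddCommGroup K] [Module.Free ℤ K] [Module.Finite ℤ K]
    (mu : K →+ ℤ) (hmu : mu ≠ 0) (T : Set K) (hT : ∀ a ∈ T, mu a = 0) :
    rk T < Module.finrank ℤ K := by
  have h1 := (h6 K K).1 mu hmu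
  have h2 := h6 (Ker mu) K
  have h3 := h2.2.2.1 {a : Ker mu | (a : K) ∈ T}
  have h4 := h2.2.2.2.2.1 (incl (Ker mu)) {a : Ker mu | (a : K) ∈ T}
  have h5 : (incl (Ker mu)) '' {a : Ker mu | (a : K) ∈ T} = T := by
    ext a
    constructor
    · rintro ⟨x, hx, rfl⟩
      exact hx
    · intro ha
      exact ⟨⟨a, hT a ha⟩, ha, rfl⟩
  rw [h5] at h4
  omega

end Rank

/-- (APA) the algebraic part of the result about a drop at one load and a small factor at
another. -/
theorem apa (h1 : QstS) (h2 : QraS) (h3 : MinS) (h4 : Coeff0S) (h5 : B5aS) (h6 : RkS) : ApaS := by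
  intro O _ _ _ _ P L _ _ _ _ _ phi D S i0 eta h c n G fd l b j e sp hfull eta' hne hv0 mu hmu hmuV
  classical
  have hj : co (phK phi (co phi i0)) j b = 1 := sp.bj
  obtain ⟨q, hq0, hX, hrec, hsym, -⟩ := h1 O P L phi D S i0 eta h c n G fd l b j e sp hj
  have hcl := h2 O P L phi D S i0 eta h c n G fd l b j e sp hj eta'
  obtain ⟨-, hS0, lam, hlS, hlam⟩ := fd.cc.ray
  obtain ⟨hV0, hVpos⟩ := h5 O L D (co phi i0) S h eta lam hlS hlam
  obtain ⟨hV0', hVpos'⟩ := h5 O L D (co phi i0) S h eta' lam hlS hlam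
  obtain ⟨lamK, hlamK⟩ : ∃ x, x = lam.comp (incl (Ker (co phi i0))) := ⟨_, rfl⟩
  rw [← hlamK] at hVpos hVpos'
  have hfa : ∀ i, FullAt lamK (G i) := fun i => fd.full i lamK hVpos
  -- the other factors
  obtain ⟨hU0, hUpos⟩ := prod_coeff0 h4 (Finset.univ.erase l)
    (fun i => res (Ker (co (phK phi (co phi i0)) j)) (G i))
    (lamK.comp (incl (Ker (co (phK phi (co phi i0)) j))))
    (fun i _ => pos_res _ _ _ (hfa i).2.1)
  obtain ⟨U, hU⟩ : ∃ x, x = ∏ i ∈ Finset.univ.erase l,
    res (Ker (co (phK phi (co phi i0)) j)) (G i) := ⟨_, rfl⟩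
  rw [← hU] at hU0 hUpos hX
  have hU1 : U.coeff 0 = ∏ i ∈ Finset.univ.erase l, (G i).coeff 0 := hU0
  have hUne : U.coeff 0 ≠ 0 := by
    rw [hU1]
    exact Finset.prod_ne_zero_iff.2 (fun i _ => (hfa i).1)
  obtain ⟨r, hr⟩ : ∃ x, x = 1 - (eta' : RO O) * ((eta⁻¹ : (RO O)ˣ) : RO O) := ⟨_, rfl⟩
  have hr0 : r ≠ 0 := by
    intro h0
    rw [hr] at h0
    have h7 : ((eta' * eta⁻¹ : (RO O)ˣ) : RO O) = ((1 : (RO O)ˣ) : RO O) := by
      rw [Units.val_mul, Units.val_one]
      exact (sub_eq_zero.1 h0).symm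
    have h8 := Units.ext h7
    exact hne (mul_inv_eq_one.1 h8)
  rw [← hr, hX] at hcl
  obtain ⟨V', hV'⟩ : ∃ x, x = cl (co phi i0) S h eta' D := ⟨_, rfl⟩
  rw [← hV'] at hcl hV0' hVpos' hmuV
  have hsW : ∀ a, a ∈ supp (q * U) →
      a ∈ supp (cl (co (phK phi (co phi i0)) j) b hj e V') := by
    intro a ha
    rw [hcl]
    exact supp_cst_mul hr0 _ a ha
  by_cases hmb : mu b = 0
  · -- the functional vanishes on the ray
    exfalso
    have hz : Zr (mu.comp (incl (Ker (co (phK phi (co phi i0)) j)))) (q * U) := by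
      intro a ha
      obtain ⟨a1, ha1, rfl⟩ := supp_cl _ _ _ _ _ a (hsW a ha)
      change mu ((prj (co (phK phi (co phi i0)) j) b hj a1 :
        Ker (co (phK phi (co phi i0)) j)) : Ker (co phi i0)) = 0
      rw [prj_coe, map_sub, map_zsmul, hmb, smul_zero, sub_zero]
      exact hmuV a1 ha1
    obtain ⟨-, hzU⟩ := zr_of_mul h3 q U hq0 hUne _ hz
    have hzem := zr_em _ mu U hzU
    have hprod : H71.em (Ker (co (phK phi (co phi i0)) j)) U =
        ∏ i ∈ Finset.univ.erase l, G i := by
      rw [hU, map_prod]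
      refine Finset.prod_congr rfl fun i hi => ?_
      exact H71.em_res _ _ (fun a ha => sp.other i (Finset.ne_of_mem_erase hi) a ha)
    rw [hprod] at hzem
    have hVz : Zr mu (cl (co phi i0) S h eta D) := by
      rw [fd.eq, ← Finset.mul_prod_erase Finset.univ G (Finset.mem_univ l), sp.eq]
      refine zr_mul (zr_single _ (map_zero mu)) (zr_mul (zr_mul (zr_single _ (map_zero mu)) ?_) hzem)
      exact zr_sub (zr_single _ (map_zero mu)) (zr_single _ hmb)
    have h7 := rk_lt h6 (Ker (co phi i0)) mu hmu _ hVz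
    omega
  · -- the functional does not vanish on the ray
    obtain ⟨nu, hnuV, hnub⟩ : ∃ nu : Ker (co phi i0) →+ ℤ, (∀ a ∈ supp V', nu a = 0) ∧
        0 < nu b := by
      rcases lt_or_gt_of_ne hmb with h7 | h7
      · refine ⟨-mu, fun a ha => ?_, ?_⟩
        · rw [AddMonoidHom.neg_apply, hmuV a ha, neg_zero]
        · rw [AddMonoidHom.neg_apply]
          linarith
      · exact ⟨mu, hmuV, h7⟩
    have hlb : (nu b • lamK - lamK b • nu) b = 0 := by
      rw [AddMonoidHom.sub_apply, AddMonoidHom.smul_apply, AddMonoidHom.smul_apply, smul_eq_mul,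
        smul_eq_mul, mul_comm, sub_self]
    have hla : ∀ a ∈ supp V', a ≠ 0 → a ≠ b → 0 < (nu b • lamK - lamK b • nu) a := by
      intro a ha h0 _
      rw [AddMonoidHom.sub_apply, AddMonoidHom.smul_apply, AddMonoidHom.smul_apply, hnuV a ha,
        smul_zero, sub_zero, smul_eq_mul]
      exact mul_pos hnub (hVpos' a (Finsupp.mem_support_iff.2 ha) h0)
    obtain ⟨hW0, hWpos⟩ := h5 O (Ker (co phi i0)) V' (co (phK phi (co phi i0)) j) b hj e
      (nu b • lamK - lamK b • nu) hlb hla
    have hVb : V'.coeff b = 0 := by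
      by_contra h7
      have h8 := hnuV b h7
      omega
    rw [hVb, mul_zero, add_zero, hcl, H71.cst_mul_coeff] at hW0
    have hqpos : Pos ((nu b • lamK - lamK b • nu).comp
        (incl (Ker (co (phK phi (co phi i0)) j)))) (q * U) := by
      intro a ha h0
      exact hWpos a (Finsupp.mem_support_iff.2 (hsW a (Finsupp.mem_support_iff.1 ha))) h0
    have hqc := cst_of_sym h3 q U hq0 hUne hsym _ hqpos
    have hqU : (q * U).coeff 0 = q.coeff 0 * U.coeff 0 := by
      conv_lhs => rw [hqc]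
      rw [H71.cst_mul_coeff]
    refine ⟨q.coeff 0, U.coeff 0, ?_, ?_, ?_⟩
    · rw [← hV0', ← hW0, hqU, hr]
    · rw [fd.v00, ← Finset.mul_prod_erase Finset.univ (fun i => (G i).coeff 0)
        (Finset.mem_univ l), hU1, mul_assoc]
    · have h7 := congrArg (fun F => F.coeff 0) hrec
      simp only [mul_cst_coeff, sharp_coeff', neg_zero] at h7
      rw [mul_comm, h7, mul_comm]

end Pool.Agent.B5.H74
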