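import Pool.Agent.Lib.MP_b5021c_nt.IfaceS4a

/-!
# MP_b5021c_nt, row U_RA2: the zero after a load of type A2
-/

namespace Pool.Agent.B5.H74

/-- (RA2) the zero after a load of type A2. -/
theorem ra2 : Ra2S := by
  intro T T' c e h₀ h hT hT' he hw h52 hh hE
  by_contra hcon
  push Not at hcon
  have hT'0 : 0 < ‖T'‖ := by linarith
  have h1 : T' * ((1 + e * (c + h₀)) + e * (h - h₀)) = T * (1 + e * h) := by
    linear_combination hE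
  have h2 : ‖T'‖ * ‖(1 + e * (c + h₀)) + e * (h - h₀)‖ = ‖T‖ * ‖1 + e * h‖ := by
    rw [← norm_mul, h1, norm_mul]
  have h3 : ‖e * (h - h₀)‖ ≤ 7 / ‖T'‖ := by
    rw [norm_mul, he, one_mul]
    exact hh
  have h4 : 1 - 7 / ‖T'‖ ≤ ‖(1 + e * (c + h₀)) + e * (h - h₀)‖ := by
    have h5 := norm_sub_norm_le (1 + e * (c + h₀)) (-(e * (h - h₀)))
    rw [norm_neg, sub_neg_eq_add, hw] at h5
    linarith
  have h6 : ‖1 + e * h‖ ≤ 6 / 10 + 7 / ‖T'‖ := by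
    have h5 : 1 + e * h = (1 + e * h₀) + e * (h - h₀) := by ring
    rw [h5]
    have h7 := norm_add_le (1 + e * h₀) (e * (h - h₀))
    linarith
  have h8 : ‖T'‖ - 7 ≤ ‖T'‖ * ‖(1 + e * (c + h₀)) + e * (h - h₀)‖ := by
    have h9 := mul_le_mul_of_nonneg_left h4 hT'0.le
    have h10 : ‖T'‖ * (1 - 7 / ‖T'‖) = ‖T'‖ - 7 := by
      field_simp
    linarith
  have h11 : ‖T‖ * ‖1 + e * h‖ ≤ ‖T‖ * (6 / 10 + 7 / ‖T'‖) :=
    mul_le_mul_of_nonneg_left h6 (by linarith)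
  have h12 : ‖T‖ * (7 / ‖T'‖) ≤ 35 / 3 := by
    rw [mul_div_assoc', div_le_iff₀ hT'0]
    linarith
  have h13 : ‖T‖ * (6 / 10 + 7 / ‖T'‖) = 6 / 10 * ‖T‖ + ‖T‖ * (7 / ‖T'‖) := by ring
  linarith

end Pool.Agent.B5.H74
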